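import Pool.Agent.Helper82.OneArm.Sech
import Pool.Agent.Helper18.OneArm.Kappa

/-! (B1): Laplace transform of the weight `kap`. -/

open Real MeasureTheory Filter Topology

namespace OneArm

theorem b1_cos_sub (u : ℝ) : Complex.cos ((π / 3 + 2 * u : ℂ) / 2) = (sx (-u) : ℂ) := by
  rw [sx, Complex.ofReal_sin, ← Complex.cos_pi_div_two_sub]
  congr 1
  push_cast
  ring

theorem b1_cos_add (u : ℝ) : Complex.cos ((-(π / 3) + 2 * u : ℂ) / 2) = (sx u : ℂ) := by
  rw [sx, Complex.ofReal_sin, ← Complex.cos_pi_div_two_sub, ← Complex.cos_neg]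
  congr 1
  push_cast
  ring

theorem b1_re (a u : ℝ) : (a + 2 * u : ℂ).re = a + 2 * u := by
  have : (a + 2 * u : ℂ) = ((a + 2 * u : ℝ) : ℂ) := by push_cast; ring
  rw [this, Complex.ofReal_re]

theorem b1_point (θ u v : ℝ) :
    2 * (kap θ v * Complex.exp (2 * u * v)) =
      Complex.exp (Complex.I * θ / 2) * (Complex.exp ((π / 3 + 2 * u : ℂ) * v) * wt v) +
      Complex.exp (-(Complex.I * θ / 2)) * (Complex.exp ((-(π / 3) + 2 * u : ℂ) * v) * wt v) := by
  have hch : Complex.cosh ((π : ℂ) * v) = ((Real.cosh (π * v) : ℝ) : ℂ) := by push_cast; rfl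
  have e1 : Complex.exp ((π / 3 + 2 * u : ℂ) * v) =
      Complex.exp ((π : ℂ) * v / 3) * Complex.exp (2 * u * v) := by
    rw [← Complex.exp_add]; congr 1; ring
  have e2 : Complex.exp ((-(π / 3) + 2 * u : ℂ) * v) =
      Complex.exp (-((π : ℂ) * v / 3)) * Complex.exp (2 * u * v) := by
    rw [← Complex.exp_add]; congr 1; ring
  have e3 : 2 * Complex.cosh ((π : ℂ) * v / 3 + Complex.I * θ / 2) =
      Complex.exp ((π : ℂ) * v / 3) * Complex.exp (Complex.I * θ / 2) +
      Complex.exp (-((π : ℂ) * v / 3)) * Complex.exp (-(Complex.I * θ / 2)) := by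
    rw [Complex.cosh, ← Complex.exp_add, ← Complex.exp_add]
    have : -((π : ℂ) * v / 3 + Complex.I * θ / 2) = -((π : ℂ) * v / 3) + -(Complex.I * θ / 2) := by
      ring
    rw [this]
    ring
  rw [e1, e2, kap, hch, wt, Complex.ofReal_inv]
  have h4 : 2 * (Complex.cosh ((π : ℂ) * v / 3 + Complex.I * θ / 2) /
      ((Real.cosh (π * v) : ℝ) : ℂ) * Complex.exp (2 * u * v)) =
      (2 * Complex.cosh ((π : ℂ) * v / 3 + Complex.I * θ / 2)) *
      ((Real.cosh (π * v) : ℝ) : ℂ)⁻¹ * Complex.exp (2 * u * v) := by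
    rw [div_eq_mul_inv]; ring
  rw [h4, e3]
  ring

/-- integrability of the Laplace integrand -/
theorem b1_integrable (θ u : ℝ) (hu : |u| < π / 3) :
    Integrable (fun v : ℝ => kap θ v * Complex.exp (2 * u * v)) := by
  rw [abs_lt] at hu
  have h1 : |(π / 3 + 2 * u : ℂ).re| < π := by
    have := b1_re (π / 3) u
    push_cast at this
    rw [this, abs_lt]
    constructor <;> linarith [hu.1, hu.2, Real.pi_pos]
  have h2 : |(-(π / 3) + 2 * u : ℂ).re| < π := by
    have := b1_re (-(π / 3)) u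
    push_cast at this
    rw [this, abs_lt]
    constructor <;> linarith [hu.1, hu.2, Real.pi_pos]
  have h3 := (((sech_laplace_integrable _ h1).const_mul (Complex.exp (Complex.I * θ / 2))).add
    ((sech_laplace_integrable _ h2).const_mul (Complex.exp (-(Complex.I * θ / 2))))).const_mul
      (1 / 2 : ℂ)
  refine h3.congr (Eventually.of_forall fun v => ?_)
  have := b1_point θ u v
  simp only [Pi.add_apply]
  rw [← this]
  ring

/-- (B1) for `|u| < π/3`:
`2 ∫ kap θ v e^{2uv} dv = e^{iθ/2} / s(-u) + e^{-iθ/2} / s(u)`, `s(x) = sin (π/3 + x)`. -/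
theorem kap_laplace (θ u : ℝ) (hu : |u| < π / 3) :
    2 * ∫ v : ℝ, kap θ v * Complex.exp (2 * u * v) =
      Complex.exp (Complex.I * θ / 2) / (sx (-u) : ℂ)
        + Complex.exp (-(Complex.I * θ / 2)) / (sx u : ℂ) := by
  have hu' := abs_lt.1 hu
  have h1 : |(π / 3 + 2 * u : ℂ).re| < π := by
    have := b1_re (π / 3) u
    push_cast at this
    rw [this, abs_lt]
    constructor <;> linarith [hu'.1, hu'.2, Real.pi_pos]
  have h2 : |(-(π / 3) + 2 * u : ℂ).re| < π := by
    have := b1_re (-(π / 3)) u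
    push_cast at this
    rw [this, abs_lt]
    constructor <;> linarith [hu'.1, hu'.2, Real.pi_pos]
  rw [← integral_const_mul, integral_congr_ae (Eventually.of_forall fun v => b1_point θ u v),
    integral_add ((sech_laplace_integrable _ h1).const_mul _)
      ((sech_laplace_integrable _ h2).const_mul _), integral_const_mul, integral_const_mul,
    sech_laplace _ h1, sech_laplace _ h2, b1_cos_sub, b1_cos_add]
  ring

/-- the entries of the matrix of the determinant formula as Laplace integrals -/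
theorem Mmat_eq (L : ℕ) (θ : ℝ) (b : Fin L → ℝ) (i j : Fin L) (h : |b i - b j| < π / 3) :
    Mmat L θ b i j = 2 * ∫ v : ℝ, kap θ v * Complex.exp (2 * (b i - b j : ℝ) * v) := by
  rw [kap_laplace θ (b i - b j) h, Mmat]
  have : -(b i - b j) = b j - b i := by ring
  simp only [Matrix.of_apply, this]

end OneArm
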